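import Pool.Agent.K1H2.UB.Stm

/-!
Task UB-NEAR: increments near the pole.
-/

set_option autoImplicit false

open Finset

namespace Pool.Agent.K1H29.UB

open Pool.Agent.K1H2.UB Pool.Agent.K1H53.BI

/-- the sign of a direction -/
noncomputable def sg (e : Fin 3 × Bool) : ℝ := if e.2 then 1 else -1

theorem sg_sq (e : Fin 3 × Bool) : sg e * sg e = 1 := by
  unfold sg
  split_ifs <;> norm_num

theorem sg_abs (e : Fin 3 × Bool) (a : ℝ) : a * sg e ≤ |a| := by
  unfold sg
  split_ifs
  · rw [mul_one]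
    exact le_abs_self a
  · rw [mul_neg, mul_one]
    exact neg_le_abs a

theorem rd_apply (e : Fin 3 × Bool) (i : Fin 3) : rd e i = if i = e.1 then sg e else 0 := by
  unfold rd sg
  by_cases h : i = e.1
  · subst h
    simp
  · rw [Pi.single_eq_of_ne h, if_neg h]

theorem q_add (w : Fin 3 → ℝ) (e : Fin 3 × Bool) :
    q (w + rd e) = q w + 2 * (w e.1 * sg e) + 1 := by
  unfold q
  have h : ∀ i, (w + rd e) i ^ 2 = w i ^ 2 + (if i = e.1 then 2 * (w e.1 * sg e) + 1 else 0) := by
    intro i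
    rw [Pi.add_apply, rd_apply]
    split_ifs with hi
    · subst hi
      have := sg_sq e
      linear_combination this
    · ring
  rw [Finset.sum_congr rfl (fun i _ => h i), Finset.sum_add_distrib, Finset.sum_ite_eq']
  simp
  ring

theorem q_nonneg (w : Fin 3 → ℝ) : 0 ≤ q w := Finset.sum_nonneg fun _ _ => sq_nonneg _

theorem abs_le_sqrt (w : Fin 3 → ℝ) (i : Fin 3) {t : ℝ} (ht : 0 ≤ t) :
    |w i| ≤ Real.sqrt (q w + t) := by
  apply Real.abs_le_sqrt
  have : w i ^ 2 ≤ q w := Finset.single_le_sum (f := fun i => w i ^ 2)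
    (fun _ _ => sq_nonneg _) (Finset.mem_univ i)
  linarith

theorem key (t : ℝ) (ht : 0 ≤ t) (w : Fin 3 → ℝ) (e : Fin 3 × Bool) :
    |Real.sqrt (q (w + rd e) + t) - Real.sqrt (q w + t)| ≤ 1 := by
  have h1 := q_add w e
  have ha := abs_le_sqrt w e.1 ht
  have hb := abs_le_sqrt (w + rd e) e.1 ht
  have hqa : 0 ≤ q w + t := add_nonneg (q_nonneg _) ht
  have hqb : 0 ≤ q (w + rd e) + t := add_nonneg (q_nonneg _) ht
  have sa := Real.sq_sqrt hqa
  have sb := Real.sq_sqrt hqb
  have na := Real.sqrt_nonneg (q w + t)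
  have nb := Real.sqrt_nonneg (q (w + rd e) + t)
  set a := Real.sqrt (q w + t) with hadef
  set b := Real.sqrt (q (w + rd e) + t) with hbdef
  have hab : b ^ 2 = a ^ 2 + 2 * (w e.1 * sg e) + 1 := by
    rw [sa, sb, h1]
    ring
  have hwe : (w + rd e) e.1 = w e.1 + sg e := by
    rw [Pi.add_apply, rd_apply, if_pos rfl]
  rw [hwe] at hb
  rw [abs_le]
  constructor
  · -- a ≤ b + 1
    have h2 : a ^ 2 ≤ (b + 1) ^ 2 := by
      have h3 : a ^ 2 = b ^ 2 + 2 * (-(w e.1 + sg e) * sg e) + 1 := by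
        rw [hab]
        linear_combination (2 : ℝ) * sg_sq e
      have h4 := sg_abs e (-(w e.1 + sg e))
      rw [abs_neg] at h4
      nlinarith
    have := abs_le_of_sq_le_sq' h2 (by linarith)
    linarith [this.2]
  · have h2 : b ^ 2 ≤ (a + 1) ^ 2 := by
      have h4 := sg_abs e (w e.1)
      nlinarith
    have := abs_le_of_sq_le_sq' h2 (by linarith)
    linarith [this.2]

theorem q_rv (x : V) : q (rv x) = (nsq x : ℝ) := by
  unfold q rv nsq
  push_cast
  apply Finset.sum_congr rfl
  intro i _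
  rw [Nat.cast_natAbs, Int.cast_abs, sq_abs]

theorem nrm_eq (x : V) : nrm x = Real.sqrt (q (rv x) + 0) := by
  unfold nrm
  rw [q_rv, add_zero]

theorem rv_add (x : V) (e : Fin 3 × Bool) : rv (x + dir e) = rv x + rd e := by
  funext i
  rw [Pi.add_apply, rd_apply]
  unfold rv dir sg
  rw [Pi.add_apply]
  by_cases h : i = e.1
  · subst h
    simp only [Pi.single_eq_same, if_true]
    split_ifs <;> push_cast <;> ring
  · rw [Pi.single_eq_of_ne h, if_neg h]
    push_cast
    ring

theorem nrm_add (x : V) (e : Fin 3 × Bool) : |nrm (x + dir e) - nrm x| ≤ 1 := by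
  rw [nrm_eq, nrm_eq, rv_add]
  exact key 0 le_rfl _ e

theorem one_le_nrm (x : V) (hx : x ≠ 0) : 1 ≤ nrm x := by
  unfold nrm
  rw [Real.one_le_sqrt]
  have : 1 ≤ nsq x := by
    rw [Nat.one_le_iff_ne_zero]
    intro h
    apply hx
    funext i
    unfold nsq at h
    rw [Finset.sum_eq_zero_iff] at h
    have h1 := h i (Finset.mem_univ i)
    have h2 : (x i).natAbs = 0 := by
      exact pow_eq_zero_iff (two_ne_zero) |>.1 h1
    exact Int.natAbs_eq_zero.1 h2
  exact_mod_cast this

theorem nrm_zero : nrm (0 : V) = 0 := by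
  unfold nrm nsq
  simp

theorem t_NEAR : S_NEAR := by
  intro hGEO _ C k hC hK
  refine ⟨1 / (8 * C), 32 * C ^ 2 * (1 + C) ^ 3, by positivity, ?_, ?_, ?_⟩
  · rw [div_le_one (by positivity)]
    linarith
  · have h1 : (1 : ℝ) ≤ C ^ 2 := one_le_pow₀ hC
    have h2 : (1 : ℝ) ≤ (1 + C) ^ 3 := one_le_pow₀ (by linarith)
    nlinarith [mul_le_mul h1 h2 zero_le_one (by positivity)]
  intro N z hReg x hxz hxN hs e'
  have hCpos : 0 < C := by linarith
  have hC1 : (10 : ℝ) ≤ 32 * C ^ 2 * (1 + C) ^ 3 := by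
    have h1 : (1 : ℝ) ≤ C ^ 2 := one_le_pow₀ hC
    have h2 : (1 : ℝ) ≤ (1 + C) ^ 3 := one_le_pow₀ (by linarith)
    nlinarith [mul_le_mul h1 h2 zero_le_one (by positivity)]
  obtain ⟨g1, g2, _, _, _, g6, _⟩ := hGEO N z ⟨hReg.far, hC1.trans hReg.big⟩
  have hdel : 10 ≤ dl N z := hC1.trans hReg.big
  set del := dl N z with hdeldef
  have hxz0 : x - z ≠ 0 := sub_ne_zero.2 hxz
  set s := nrm (x - z) with hsdef
  have hs1 : 1 ≤ s := one_le_nrm _ hxz0
  have hs0 : 0 < s := by linarith
  have hsd : 8 * C * s ≤ del := by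
    have : s ≤ del / (8 * C) := by
      rw [div_eq_inv_mul]
      rw [one_div] at hs
      exact hs
    rw [le_div_iff₀ (by positivity)] at this
    linarith
  have hsdel : s ≤ del := by nlinarith
  obtain ⟨e, he⟩ := hK.inc (x - z) hxz0
  refine ⟨e, ?_⟩
  -- the increment of the regular part
  have hbound : ∀ y : V, nrm y ≤ N + 1 → del / 2 ≤ Real.sqrt (q (rv y - zs N z) + 3) := by
    intro y hy
    have h1 : len (rv y) ≤ N + 1 := by
      have : len (rv y) = nrm y := by
        unfold len nrm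
        rw [q_rv]
      rw [this]
      exact hy
    refine (g6 (rv y) h1).1.trans ?_
    unfold len
    exact Real.sqrt_le_sqrt (by linarith)
  have hxe := abs_le.1 (nrm_add x e)
  have hA := hbound (x + dir e) (by linarith [hxe.2])
  have hB := hbound x (by linarith)
  have hAB : |Real.sqrt (q (rv (x + dir e) - zs N z) + 3) -
      Real.sqrt (q (rv x - zs N z) + 3)| ≤ 1 := by
    have h1 : rv (x + dir e) - zs N z = (rv x - zs N z) + rd e := by
      rw [rv_add]
      abel
    rw [h1]
    exact key 3 (by norm_num) _ e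
  set a := Real.sqrt (q (rv (x + dir e) - zs N z) + 3) with hadef
  set b := Real.sqrt (q (rv x - zs N z) + 3) with hbdef
  have ha0 : 0 < a := by linarith
  have hb0 : 0 < b := by linarith
  have hphi : kap N z / a - kap N z / b ≤ 16 / del ^ 2 := by
    have h1 : kap N z / a - kap N z / b = kap N z * (b - a) / (a * b) := by
      field_simp
    rw [h1, div_le_div_iff₀ (by positivity) (by positivity)]
    have h2 : kap N z * (b - a) ≤ 4 := by
      have h3 : b - a ≤ 1 := by
        have := (abs_le.1 hAB).1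
        linarith
      by_cases h4 : 0 ≤ b - a
      · nlinarith
      · push Not at h4
        nlinarith
    have h5 : del ^ 2 ≤ 4 * (a * b) := by nlinarith
    have h6 : 0 ≤ del ^ 2 := by positivity
    calc kap N z * (b - a) * del ^ 2 ≤ 4 * del ^ 2 := mul_le_mul_of_nonneg_right h2 h6
      _ ≤ 16 * (a * b) := by linarith
  have hsmall : 16 / del ^ 2 ≤ 1 / (2 * C * s ^ 2) := by
    rw [div_le_div_iff₀ (by positivity) (by positivity)]
    have h1 : (8 * C * s) ^ 2 ≤ del ^ 2 := pow_le_pow_left₀ (by positivity) hsd 2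
    nlinarith [mul_pos hCpos (pow_pos hs0 2), mul_le_mul_of_nonneg_right hC
      (mul_nonneg hCpos.le (sq_nonneg s))]
  have hinc : 1 / (2 * C * s ^ 2) ≤ UU k N z (x + dir e) - UU k N z x := by
    unfold UU
    have h1 : x + dir e - z = x - z + dir e := by abel
    rw [h1]
    have h2 : 1 / (C * s ^ 2) = 1 / (2 * C * s ^ 2) + 1 / (2 * C * s ^ 2) := by
      field_simp
      norm_num
    rw [← hsdef] at he
    linarith
  -- the upper bound
  have hup : UU k N z (x + dir e') ≤ 2 * (1 + C) / s := by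
    have h1 : UU k N z (x + dir e') ≤ k (x + dir e' - z) := by
      unfold UU
      have : 0 ≤ kap N z / Real.sqrt (q (rv (x + dir e') - zs N z) + 3) :=
        div_nonneg (by linarith) (Real.sqrt_nonneg _)
      linarith
    refine h1.trans ?_
    have h2 : x + dir e' - z = x - z + dir e' := by abel
    rw [h2]
    have h3 := abs_le.1 (nrm_add (x - z) e')
    rw [← hsdef] at h3
    by_cases h0 : x - z + dir e' = 0
    · rw [h0] at h3 ⊢
      rw [nrm_zero] at h3
      refine (hK.le 0).trans ?_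
      rw [le_div_iff₀ hs0]
      nlinarith [h3.1]
    · have h4 := one_le_nrm _ h0
      have h5 := hK.upp _ h0
      set r := nrm (x - z + dir e') with hr
      have hr0 : 0 < r := by linarith
      have h6 : s ≤ 2 * r := by linarith [h3.1]
      have h7 : C / r ^ 3 ≤ C / r := by
        apply div_le_div_of_nonneg_left hCpos.le hr0
        exact le_self_pow₀ h4 (by norm_num)
      have h8 : 1 / r + C / r = (1 + C) / r := by rw [← add_div]
      have h9 : (1 + C) / r ≤ 2 * (1 + C) / s := by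
        rw [div_le_div_iff₀ hr0 hs0]
        nlinarith
      linarith
  have hpos : 0 < 1 / (2 * C * s ^ 2) := by positivity
  have hR : 32 * C ^ 2 * (1 + C) ^ 3 * del * (1 / (2 * C * s ^ 2)) ^ 2 ≤
      32 * C ^ 2 * (1 + C) ^ 3 * del * (UU k N z (x + dir e) - UU k N z x) ^ 2 := by
    apply mul_le_mul_of_nonneg_left (pow_le_pow_left₀ hpos.le hinc 2)
    have : 0 < del := by linarith
    positivity
  refine le_trans ?_ hR
  by_cases hneg : UU k N z (x + dir e') ≤ 0
  · have h1 : UU k N z (x + dir e') ^ 3 ≤ 0 := by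
      have : UU k N z (x + dir e') ^ 3 = UU k N z (x + dir e') * UU k N z (x + dir e') ^ 2 := by ring
      rw [this]
      exact mul_nonpos_of_nonpos_of_nonneg hneg (sq_nonneg _)
    have h2 : 0 ≤ 32 * C ^ 2 * (1 + C) ^ 3 * del * (1 / (2 * C * s ^ 2)) ^ 2 := by
      have : 0 < del := by linarith
      positivity
    linarith
  · push Not at hneg
    have h1 : UU k N z (x + dir e') ^ 3 ≤ (2 * (1 + C) / s) ^ 3 :=
      pow_le_pow_left₀ hneg.le hup 3
    refine h1.trans ?_
    have h2 : (2 * (1 + C) / s) ^ 3 = 8 * (1 + C) ^ 3 / s ^ 3 := by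
      rw [div_pow]
      ring
    have h3 : 32 * C ^ 2 * (1 + C) ^ 3 * del * (1 / (2 * C * s ^ 2)) ^ 2 =
        8 * (1 + C) ^ 3 * del / s ^ 4 := by
      field_simp
      ring
    rw [h2, h3, div_le_div_iff₀ (by positivity) (by positivity)]
    have h4 : s * (8 * (1 + C) ^ 3 * s ^ 3) ≤ del * (8 * (1 + C) ^ 3 * s ^ 3) :=
      mul_le_mul_of_nonneg_right hsdel (by positivity)
    nlinarith

end Pool.Agent.K1H29.UB
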